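import Pool.Agent.L7h20.LM.Main
import Pool.Agent.L7h21.NF.Indy
import Pool.Agent.L7h97.NF.Xfer

/-!
# Project LM: leafwise means (conclusion)
-/

set_option autoImplicit false

open Set Filter Topology Metric Function
open scoped Manifold ContDiff

noncomputable section

namespace Pool.Agent.L7h20.LM

open Pool.Agent.Y522 Pool.Agent.L7h20.NF Pool.Agent.L7h45.NF

/-- the rank in coordinates -/
theorem rk_coord {m : ℕ} {X Y : Type} [TopologicalSpace X] [ChartedSpace (E (m + 1)) X]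
    [TopologicalSpace Y] [ChartedSpace (E (m + 1)) Y]
    [IsManifold (𝓡 (m + 1)) ∞ X] [IsManifold (𝓡 (m + 1)) ∞ Y] (F : X → Y)
    (hF : ContMDiff (𝓡 (m + 1)) (𝓡 (m + 1)) ∞ F) (P : E (m + 1) → X) (q : Y → E (m + 1)) (x : X)
    (hP0 : P 0 = x) (hP : LD (m + 1) P 0) (hq : LD (m + 1) q (F x))
    (h : m ≤ Module.finrank ℝ (LinearMap.range
      (fderiv ℝ (fun z => q (F (P z))) 0).toLinearMap)) : RkY (m := m) F x := by
  subst hP0
  have hn : (∞ : WithTop ℕ∞) ≠ 0 := by simp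
  let Dq : E (m + 1) →L[ℝ] E (m + 1) := mfderiv (𝓡 (m + 1)) (𝓡 (m + 1)) q (F (P 0))
  let DF : E (m + 1) →L[ℝ] E (m + 1) := mfderiv (𝓡 (m + 1)) (𝓡 (m + 1)) F (P 0)
  let DP : E (m + 1) →L[ℝ] E (m + 1) := mfderiv (𝓡 (m + 1)) (𝓡 (m + 1)) P 0
  have hDq : Injective Dq := hq.mfderiv_injective
  have hDP : Injective DP := hP.mfderiv_injective
  have hDPs : Surjective DP := by
    have := LinearMap.injective_iff_surjective (f := DP.toLinearMap)
    exact this.mp hDP
  have c1 : HasMFDerivAt (𝓡 (m + 1)) (𝓡 (m + 1)) (fun z => F (P z)) 0 (DF ∘L DP) :=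
    HasMFDerivAt.comp (g := F) (f := P) 0
      ((hF.mdifferentiableAt hn (x := P 0)).hasMFDerivAt) hP.mdifferentiableAt.hasMFDerivAt
  have c2 : HasMFDerivAt (𝓡 (m + 1)) (𝓡 (m + 1)) (fun z => q (F (P z))) 0 (Dq ∘L (DF ∘L DP)) :=
    HasMFDerivAt.comp (g := q) (f := fun z => F (P z)) 0 hq.mdifferentiableAt.hasMFDerivAt c1
  have e1 : fderiv ℝ (fun z => q (F (P z))) 0 = Dq ∘L (DF ∘L DP) := by
    rw [← mfderiv_eq_fderiv]
    exact c2.mfderiv
  rw [e1] at h
  have h2 := Pool.Agent.L7h97.NF.finrank_range_comp Dq.toLinearMap DF.toLinearMap DP.toLinearMap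
    hDq hDPs
  have e2 : (Dq ∘L (DF ∘L DP)).toLinearMap = (Dq.toLinearMap ∘ₗ DF.toLinearMap) ∘ₗ DP.toLinearMap :=
    rfl
  rw [e2] at h
  exact h.trans_eq h2

section main

variable {m k : ℕ} {M N : Type} [TopologicalSpace M] [ChartedSpace (E (m + 1)) M]
  [TopologicalSpace N] [ChartedSpace (E (m + 1)) N]
  [IsManifold (𝓡 (m + 1)) ∞ M] [IsManifold (𝓡 (m + 1)) ∞ N]
  {ψ : E k → M → M} {φ : E k → N → N} {f : M → N} {a : E k → M → E k}
  {ι : Type} [Fintype ι] {w : ι → ℝ} {s : ι → E k}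

/-- the moved map is fold-free of corank at most one -/
theorem setting (hB : S_BOXES) (hD : S_DET)
    (hψ : IsAct (n := m + 1) k ψ) (hφ : IsAct (n := m + 1) k φ)
    (hO : IsOrb (n := m + 1) k ψ φ f a) (hw : ∑ i, w i = 1)
    (hnn : ∀ x, 0 ≤ (Gd w s a x).det) (hd : Dense {x | 0 < (Gd w s a x).det})
    (hrk : ∀ x, k ≤ Module.finrank ℝ (LinearMap.range (Gd w s a x).toLinearMap) + 1) :
    SettingY (m := m) (FF w s a φ f) ∧ ∀ x, RkY (m := m) (FF w s a φ f) x := by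
  have hs : ContMDiff (𝓡 (m + 1)) (𝓡 (m + 1)) ∞ (FF w s a φ f) := FF_smooth hφ hO
  refine ⟨⟨hs, ?_, ?_⟩, ?_⟩
  · refine hd.mono fun x hx => ?_
    obtain ⟨P, q, hP0, hP, hq, h1, -, -⟩ := local_form hB hD hψ hφ hO hw x
    have h2 := h1.self_of_nhds
    have hq' : LD (m + 1) q (FF w s a φ f (P 0)) := by
      rw [hP0]
      exact hq
    have h3 := (Pool.Agent.L7h21.NF.ld_iff (f := FF w s a φ f) hs hP hq').2 (by
      change (fderiv ℝ (fun z => q (FF w s a φ f (P z))) 0).det ≠ 0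
      rw [h2, hP0]
      exact (show 0 < (Gd w s a x).det from hx).ne')
    rw [hP0] at h3
    exact h3
  · intro x
    obtain ⟨P, q, hP0, hP, hq, h1, -, -⟩ := local_form hB hD hψ hφ hO hw x
    refine ⟨P, q, 0, hP0, hP, ?_, ?_⟩
    · rw [hP0]
      exact hq
    · filter_upwards [h1] with z hz
      change 0 ≤ (fderiv ℝ (fun z => q (FF w s a φ f (P z))) z).det
      rw [hz]
      exact hnn _
  · intro x
    obtain ⟨P, q, hP0, hP, hq, -, h2, -⟩ := local_form hB hD hψ hφ hO hw x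
    refine rk_coord _ hs P q x hP0 hP hq ?_
    have h3 := hrk x
    omega

/-- THEOREM LM -/
theorem main (hB : S_BOXES) (hD : S_DET) (hC : S_COREY) [T2Space M] [CompactSpace M]
    [ConnectedSpace M] [T2Space N] [CompactSpace N] [ConnectedSpace N]
    (hψ : IsAct (n := m + 1) k ψ) (hφ : IsAct (n := m + 1) k φ) (f : C(M, N))
    (hO : IsOrb (n := m + 1) k ψ φ f a) (hw : ∑ i, w i = 1)
    (hnn : ∀ x, 0 ≤ (Gd w s a x).det) (hd : Dense {x | 0 < (Gd w s a x).det})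
    (hrk : ∀ x, k ≤ Module.finrank ℝ (LinearMap.range (Gd w s a x).toLinearMap) + 1)
    (g : C(N, M)) (h1 : (g.comp f).Homotopic (ContinuousMap.id M))
    (h2 : (f.comp g).Homotopic (ContinuousMap.id N)) :
    ∃ Φ : Diffeomorph (𝓡 (m + 1)) (𝓡 (m + 1)) M N ∞, f.Homotopic ⟨Φ, Φ.continuous⟩ := by
  obtain ⟨hS, hR⟩ := setting hB hD hψ hφ hO hw hnn hd hrk
  let F : C(M, N) := ⟨FF w s a φ f, hS.smooth.continuous⟩
  have hmn : Continuous (fun x : M => mn w s a x 0) := by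
    have h3 : ContMDiff (𝓡 (m + 1)) ((𝓡 k).prod (𝓡 (m + 1))) ∞ (fun x : M => ((0 : E k), x)) :=
      contMDiff_const.prodMk contMDiff_id
    have h4 : ContMDiff (𝓡 (m + 1)) (𝓡 k) ∞ (fun x : M => mn w s a x 0) :=
      (mn_smooth hO).comp h3
    exact h4.continuous
  have hfF : f.Homotopic F := by
    refine ⟨ContinuousMap.Homotopy.mk
      ⟨fun p : unitInterval × M => φ ((p.1 : ℝ) • mn w s a p.2 0) (f p.2), ?_⟩ ?_ ?_⟩
    · have h5 : Continuous (fun p : E k × N => φ p.1 p.2) := hφ.smooth.continuous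
      exact h5.comp (((continuous_subtype_val.comp continuous_fst).smul
        (hmn.comp continuous_snd)).prodMk (f.continuous.comp continuous_snd))
    · intro x
      simp [hφ.zero]
    · intro x
      simp [F, FF]
  have hgF : (g.comp F).Homotopic (ContinuousMap.id M) :=
    (ContinuousMap.Homotopic.comp (ContinuousMap.Homotopic.refl g) hfF.symm).trans h1
  have hFg : (F.comp g).Homotopic (ContinuousMap.id N) :=
    (ContinuousMap.Homotopic.comp hfF.symm (ContinuousMap.Homotopic.refl g)).trans h2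
  have honto : OntoPi1 F := OntoPi1.of_equiv F ⟨F, g, hgF, hFg⟩ rfl
  obtain ⟨Φ, -, hΦ⟩ := s_CLOSED hC m M N F hS (fun x _ => hR x) honto univ isOpen_univ
    (fun x => mem_univ _)
  exact ⟨Φ, hfF.trans hΦ⟩

end main

end Pool.Agent.L7h20.LM
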