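import Pool.Agent.L7h20.LM.Stm
import Pool.Agent.L7h45.NF.Closed
import Pool.Agent.L7h20.NF.Stm3

/-!
# Project LM: leafwise means (main part)
-/

set_option autoImplicit false

open Set Filter Topology Metric Function
open scoped Manifold ContDiff

noncomputable section

namespace Pool.Agent.L7h20.LM

open Pool.Agent.Y522 Pool.Agent.L7h20.NF

section defs

variable {k : ℕ} {M N : Type} {ι : Type} [Fintype ι]

/-- the mean displacement -/
def mn (w : ι → ℝ) (s : ι → E k) (a : E k → M → E k) (x : M) (v : E k) : E k :=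
  ∑ i, w i • a (s i + v) x

/-- its derivative at `0` -/
def Gd (w : ι → ℝ) (s : ι → E k) (a : E k → M → E k) (x : M) : E k →L[ℝ] E k :=
  fderiv ℝ (fun v => mn w s a x v) 0

/-- the moved map -/
def FF (w : ι → ℝ) (s : ι → E k) (a : E k → M → E k) (φ : E k → N → N) (f : M → N) (x : M) : N :=
  φ (mn w s a x 0) (f x)

end defs

section main

variable {n k : ℕ} {M N : Type} [TopologicalSpace M] [ChartedSpace (E n) M]
  [TopologicalSpace N] [ChartedSpace (E n) N]
  {ψ : E k → M → M} {φ : E k → N → N} {f : M → N} {a : E k → M → E k}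
  {ι : Type} [Fintype ι] {w : ι → ℝ} {s : ι → E k}

theorem IsOrb.a_zero (hO : IsOrb (n := n) k ψ φ f a) (hψ : IsAct (n := n) k ψ) (x : M) :
    a 0 x = 0 := by
  have h := hO.coc 0 0 x
  rw [add_zero, hψ.zero] at h
  simpa using h

theorem mn_shift (hO : IsOrb (n := n) k ψ φ f a) (hw : ∑ i, w i = 1) (t : E k) (y : M) (v : E k) :
    mn w s a (ψ t y) v + a t y = mn w s a y (v + t) := by
  have h1 : a t y = ∑ i, w i • a t y := by
    rw [← Finset.sum_smul, hw, one_smul]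
  unfold mn
  rw [h1, ← Finset.sum_add_distrib]
  refine Finset.sum_congr rfl fun i _ => ?_
  rw [← smul_add, ← add_assoc (s i) v t, hO.coc (s i + v) t y]

theorem FF_act (hφ : IsAct (n := n) k φ) (hO : IsOrb (n := n) k ψ φ f a) (hw : ∑ i, w i = 1)
    (t : E k) (y : M) : FF w s a φ f (ψ t y) = φ (mn w s a y t) (f y) := by
  unfold FF
  rw [hO.orb, ← hφ.add, mn_shift hO hw t y 0, zero_add]

theorem Gd_shift (hO : IsOrb (n := n) k ψ φ f a) (hw : ∑ i, w i = 1) (t : E k) (y : M) :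
    Gd w s a (ψ t y) = fderiv ℝ (fun v => mn w s a y v) t := by
  unfold Gd
  have h1 : (fun v => mn w s a (ψ t y) v) = fun v => mn w s a y (v + t) - a t y := by
    funext v
    rw [← mn_shift hO hw t y v]
    abel
  rw [h1, fderiv_sub_const]
  have h2 := fderiv_comp_add_right (𝕜 := ℝ) (f := fun v => mn w s a y v) (x := (0 : E k)) t
  rw [h2, zero_add]

theorem mn_smooth (hO : IsOrb (n := n) k ψ φ f a) :
    ContMDiff ((𝓡 k).prod (𝓡 n)) (𝓡 k) ∞ (fun p : E k × M => mn w s a p.2 p.1) := by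
  unfold mn
  refine ContMDiff.sum fun i _ => ?_
  have h1 : ContMDiff ((𝓡 k).prod (𝓡 n)) ((𝓡 k).prod (𝓡 n)) ∞
      (fun p : E k × M => (s i + p.1, p.2)) :=
    (contMDiff_const.add contMDiff_fst).prodMk contMDiff_snd
  have h2 : ContMDiff ((𝓡 k).prod (𝓡 n)) (𝓡 k) ∞
      (fun p : E k × M => a (s i + p.1) p.2) := hO.smootha.comp h1
  have h3 : ContMDiff (𝓡 k) (𝓡 k) ∞ (fun v : E k => w i • v) :=
    (contDiff_const_smul (w i)).contMDiff
  exact h3.comp h2

theorem FF_smooth (hφ : IsAct (n := n) k φ) (hO : IsOrb (n := n) k ψ φ f a) :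
    ContMDiff (𝓡 n) (𝓡 n) ∞ (FF w s a φ f) := by
  have h1 : ContMDiff (𝓡 n) ((𝓡 k).prod (𝓡 n)) ∞ (fun x : M => ((0 : E k), x)) :=
    contMDiff_const.prodMk contMDiff_id
  have h2 : ContMDiff (𝓡 n) (𝓡 k) ∞ (fun x : M => mn w s a x 0) := (mn_smooth hO).comp h1
  exact hφ.smooth.comp (h2.prodMk hO.smooth)

/-- the local form of the moved map -/
theorem local_form [IsManifold (𝓡 n) ∞ M] [IsManifold (𝓡 n) ∞ N] (hB : S_BOXES) (hD : S_DET)
    (hψ : IsAct (n := n) k ψ) (hφ : IsAct (n := n) k φ) (hO : IsOrb (n := n) k ψ φ f a)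
    (hw : ∑ i, w i = 1) (x : M) :
    ∃ (P : E n → M) (q : N → E n), P 0 = x ∧ LD n P 0 ∧ LD n q (FF w s a φ f x) ∧
      (∀ᶠ z in 𝓝 (0 : E n), (fderiv ℝ (fun z => q (FF w s a φ f (P z))) z).det =
        (Gd w s a (P z)).det) ∧
      Module.finrank ℝ (LinearMap.range (Gd w s a x).toLinearMap) + n ≤
        Module.finrank ℝ (LinearMap.range
          (fderiv ℝ (fun z => q (FF w s a φ f (P z))) 0).toLinearMap) + k ∧
      (∀ᶠ z in 𝓝 (0 : E n), ContDiffAt ℝ ∞ (fun z => q (FF w s a φ f (P z))) z) := by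
  obtain ⟨l, e, P, Q, hP0, hP, hQ, hPs, hQs⟩ := hB n k M N ψ φ f a hψ hφ hO x
  -- the first component in the coordinates
  let c : E k × E l → E k := fun p => mn w s a (P (e.symm (0, p.2))) p.1
  let T : E n → E n := fun z => e.symm (c (e z), (e z).2)
  have hPe : ∀ z, P z = ψ (e z).1 (P (e.symm (0, (e z).2))) := by
    intro z
    rw [← hPs]
    simp
  have hFT : ∀ z, FF w s a φ f (P z) = Q (T z) := by
    intro z
    rw [hPe z, FF_act hφ hO hw]
    simp only [T, c]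
    rw [hQs]
  have hGc : ∀ z, fderiv ℝ (fun s' => c (s', (e z).2)) (e z).1 = Gd w s a (P z) := by
    intro z
    rw [hPe z, Gd_shift hO hw]
  -- smoothness
  have hPn : ∀ᶠ z in 𝓝 (0 : E n), LD n P z := hP.eventually
  have hcont : Continuous (fun z : E n => e.symm ((0 : E k), (e z).2)) := by fun_prop
  have hc0 : e.symm ((0 : E k), (e (0 : E n)).2) = 0 := by simp
  have hPn' : ∀ᶠ z in 𝓝 (0 : E n), LD n P (e.symm ((0 : E k), (e z).2)) := by
    have h1 : Tendsto (fun z : E n => e.symm ((0 : E k), (e z).2)) (𝓝 0) (𝓝 0) := by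
      have h2 := hcont.tendsto 0
      rw [hc0] at h2
      exact h2
    exact h1.eventually hPn
  have hcs : ∀ᶠ z in 𝓝 (0 : E n), ContDiffAt ℝ ∞ c (e z) := by
    filter_upwards [hPn'] with z hz
    rw [← contMDiffAt_iff_contDiffAt]
    have h1 : ContMDiffAt 𝓘(ℝ, E k × E l) (𝓡 n) ∞ (fun p : E k × E l => e.symm ((0 : E k), p.2))
        (e z) := by
      refine ContDiffAt.contMDiffAt ?_
      fun_prop
    have h2 : ContMDiffAt 𝓘(ℝ, E k × E l) (𝓡 n) ∞ (fun p : E k × E l => P (e.symm ((0 : E k), p.2)))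
        (e z) := ContMDiffAt.comp (e z) hz.contMDiffAt h1
    have h3 : ContMDiffAt 𝓘(ℝ, E k × E l) (𝓡 k) ∞ (fun p : E k × E l => p.1) (e z) := by
      refine ContDiffAt.contMDiffAt ?_
      fun_prop
    have h4 : ContMDiffAt ((𝓡 k).prod (𝓡 n)) (𝓡 k) ∞ (fun p : E k × M => mn w s a p.2 p.1)
        ((e z).1, P (e.symm ((0 : E k), (e z).2))) := (mn_smooth (w := w) (s := s) hO).contMDiffAt
    have h5 : ContMDiffAt 𝓘(ℝ, E k × E l) ((𝓡 k).prod (𝓡 n)) ∞
        (fun p : E k × E l => (p.1, P (e.symm ((0 : E k), p.2)))) (e z) := h3.prodMk h2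
    exact ContMDiffAt.comp (g := fun p : E k × M => mn w s a p.2 p.1) (e z) h4 h5
  have hTs : ∀ᶠ z in 𝓝 (0 : E n), ContDiffAt ℝ ∞ T z := by
    filter_upwards [hcs] with z hz
    have h1 : ContDiffAt ℝ ∞ (fun z => c (e z)) z := hz.comp z (by fun_prop)
    have h2 : ContDiffAt ℝ ∞ (fun z => (e z).2) z := by fun_prop
    exact (e.symm.contDiff.contDiffAt).comp z (h1.prodMk h2)
  have hT0 : T 0 = e.symm (c (e 0), 0) := by simp [T]
  -- the inverse of `Q`
  have hQT : LD n Q (T 0) := by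
    rw [hT0]
    exact hQ _
  obtain ⟨q, hq1, hq2, hq3, -⟩ := hQT.exists_inverse
  have hFx : FF w s a φ f x = Q (T 0) := by
    rw [← hP0]
    exact hFT 0
  have hev : ∀ᶠ z in 𝓝 (0 : E n), q (FF w s a φ f (P z)) = T z := by
    have h1 : Tendsto T (𝓝 0) (𝓝 (T 0)) := (hTs.self_of_nhds).continuousAt
    filter_upwards [h1.eventually hq3] with z hz
    rw [hFT]
    exact hz
  have hev2 : ∀ᶠ z in 𝓝 (0 : E n), (fun z => q (FF w s a φ f (P z))) =ᶠ[𝓝 z] T :=
    hev.eventually_nhds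
  have hfd : ∀ᶠ z in 𝓝 (0 : E n), fderiv ℝ (fun z => q (FF w s a φ f (P z))) z = fderiv ℝ T z := by
    filter_upwards [hev2] with z hz
    exact hz.fderiv_eq
  refine ⟨P, q, hP0, hP, ?_, ?_, ?_, ?_⟩
  · rw [hFx]
    exact hq1
  · filter_upwards [hfd, hcs] with z h1 h2
    rw [h1, ← hGc z]
    exact (hD n k l e c z (h2.differentiableAt (by simp))).1
  · rw [hfd.self_of_nhds, ← hP0, ← hGc 0]
    exact (hD n k l e c 0 (hcs.self_of_nhds.differentiableAt (by simp))).2
  · filter_upwards [hev2, hTs] with z h1 h2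
    exact h2.congr_of_eventuallyEq h1

end main

end Pool.Agent.L7h20.LM
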