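import Pool.Agent.Y522.Tools

/-!
# Project LM: leafwise means (statements)

THEOREM (MP_2a0850_gt, VERY FAMOUS, Borel conjecture). `M`, `N` closed connected smooth `n`-manifolds with
locally free smooth actions `ψ`, `φ` of `ℝᵏ`, `f : M → N` a smooth homotopy equivalence with
`f (ψ s x) = φ (a s x) (f x)`, `a` a smooth cocycle, `f` transverse to the orbits of `φ` (so the rank of `f`
may be `n - k`, folds are allowed). If for some real weights `w i` with sum `1` and some `s i ∈ ℝᵏ` the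
derivative `G x` of `v ↦ ∑ w i • a (s i + v) x` at `0` has rank at least `k - 1` and determinant `≥ 0` for all
`x`, `> 0` for a dense set of `x`, then `f` is homotopic to a diffeomorphism.

PROOF. `u x = ∑ w i • a (s i) x`, `F x = φ (u x) (f x)`. BOXES: near `x`, `F (P (s, p)) = Q (b (s, p), p)`,
`b (s, p) = ∑ w i • a (s i + s) (P (0, p))`, `∂ b/∂ s = G (P (s, p))`. So `F` is fold-free of corank at most
one (DET), and project NF applies to `F`, which is homotopic to `f`.
-/

set_option autoImplicit false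

open Set Filter Topology Metric Function
open scoped Manifold ContDiff

noncomputable section

namespace Pool.Agent.L7h20.LM

open Pool.Agent.Y522

/-- a smooth locally free action of `ℝᵏ` -/
structure IsAct {n : ℕ} (k : ℕ) {M : Type} [TopologicalSpace M] [ChartedSpace (E n) M]
    (ψ : E k → M → M) : Prop where
  smooth : ContMDiff ((𝓡 k).prod (𝓡 n)) (𝓡 n) ∞ (fun p : E k × M => ψ p.1 p.2)
  zero : ∀ x, ψ 0 x = x
  add : ∀ s t x, ψ (s + t) x = ψ s (ψ t x)
  free : ∀ x, Injective (mfderiv (𝓡 k) (𝓡 n) (fun s : E k => ψ s x) 0)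

/-- `f` maps orbits to orbits, with the smooth cocycle `a`, and is transverse to the orbits of `φ` (the map
`(t, y) ↦ φ t (f y)` is a submersion at the points `(0, x)`) -/
structure IsOrb {n : ℕ} (k : ℕ) {M N : Type} [TopologicalSpace M] [ChartedSpace (E n) M]
    [TopologicalSpace N] [ChartedSpace (E n) N] (ψ : E k → M → M) (φ : E k → N → N)
    (f : M → N) (a : E k → M → E k) : Prop where
  smooth : ContMDiff (𝓡 n) (𝓡 n) ∞ f
  smootha : ContMDiff ((𝓡 k).prod (𝓡 n)) (𝓡 k) ∞ (fun p : E k × M => a p.1 p.2)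
  orb : ∀ s x, f (ψ s x) = φ (a s x) (f x)
  coc : ∀ s t x, a (s + t) x = a s (ψ t x) + a t x
  trans : ∀ x, Surjective (mfderiv ((𝓡 k).prod (𝓡 n)) (𝓡 n)
    (fun p : E k × M => φ p.1 (f p.2)) ((0 : E k), x))

/-- BOXES. `A : E n → M` local coordinates with `A 0 = x`, `p` its local inverse (`LD.exists_inverse`),
`Λ = D (s ↦ p (ψ s x)) (0)` is injective; choose `j : E l →L E n` with `(v, w) ↦ Λ v + j w` bijective;
`P (e.symm (s, w)) = ψ s (A (j w))`, `Q (e.symm (t, w)) = φ t (f (A (j w)))`. `D (p ∘ P) (0) = Λ v + j w`. With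
local coordinates `B` of `N` at `f x`, `H (t, z) = B (φ t (f (A z)))`: `DH (0) (t, z) = Λ' t + D₂ z` is onto and
`D₂ (Λ v) = Λ' (D a v)` because `f (ψ s x) = φ (a s x) (f x)`; so `(t, w) ↦ Λ' t + D₂ (j w)` is onto, hence
bijective, and `Q` is a local diffeomorphism at `e.symm (0, 0)`; at `e.symm (t, 0)` since
`Q (e.symm (t + s, w)) = φ t (Q (e.symm (s, w)))` and `φ t` is a diffeomorphism (inverse `φ (-t)`). -/
def S_BOXES : Prop :=
  ∀ (n k : ℕ) (M N : Type) [TopologicalSpace M] [ChartedSpace (E n) M] [IsManifold (𝓡 n) ∞ M]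
    [TopologicalSpace N] [ChartedSpace (E n) N] [IsManifold (𝓡 n) ∞ N]
    (ψ : E k → M → M) (φ : E k → N → N) (f : M → N) (a : E k → M → E k),
    IsAct (n := n) k ψ → IsAct (n := n) k φ → IsOrb (n := n) k ψ φ f a → ∀ x : M,
    ∃ (l : ℕ) (e : E n ≃L[ℝ] (E k × E l)) (P : E n → M) (Q : E n → N),
      P 0 = x ∧ LD n P 0 ∧ (∀ t : E k, LD n Q (e.symm (t, 0))) ∧
      (∀ s w, P (e.symm (s, w)) = ψ s (P (e.symm (0, w)))) ∧
      ∀ t w, Q (e.symm (t, w)) = φ t (f (P (e.symm (0, w))))

/-- DET (linear algebra): the derivative of `z ↦ e⁻¹ (c (e z), (e z)₂)` is block triangular. -/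
def S_DET : Prop :=
  ∀ (n k l : ℕ) (e : E n ≃L[ℝ] (E k × E l)) (c : E k × E l → E k) (z : E n),
    DifferentiableAt ℝ c (e z) →
    (fderiv ℝ (fun y => e.symm (c (e y), (e y).2)) z).det =
      (fderiv ℝ (fun s => c (s, (e z).2)) (e z).1).det ∧
    Module.finrank ℝ (LinearMap.range (fderiv ℝ (fun s => c (s, (e z).2)) (e z).1).toLinearMap) + n ≤
      Module.finrank ℝ (LinearMap.range
        (fderiv ℝ (fun y => e.symm (c (e y), (e y).2)) z).toLinearMap) + k

end Pool.Agent.L7h20.LM
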